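import Pool.Agent.Helper21.D2.Stmts
import Pool.Agent.Helper82.AHS.Ann

/-!
# D2, SPN: skew matrices over an extension are combinations of rational ones
-/

set_option autoImplicit false

namespace Pool.Agent.Helper21.TH

open Matrix Pool.Agent.Helper82.AHS

/-- SPN -/
theorem st_SPN : ST_SPN := by
  intro r m n Q t hQ hsym hkill K _ _ x hx
  classical
  have h2 : (2 : K) ≠ 0 := by
    have h : (algebraMap ℚ K) 2 ≠ 0 := by
      rw [Ne, map_eq_zero]; norm_num
    rwa [map_ofNat] at h
  obtain ⟨e, he, hQe⟩ : ∃ e : ℚ, e * e = 1 ∧ Qᵀ = e • Q := by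
    rcases hsym with h | h
    · exact ⟨1, by norm_num, by rw [h, one_smul]⟩
    · exact ⟨-1, by norm_num, by rw [h, neg_smul, one_smul]⟩
  have hu : IsUnit Q.det := isUnit_iff_ne_zero.mpr hQ
  have hQQ : Q * Q⁻¹ = 1 := Matrix.mul_nonsing_inv Q hu
  have hQQ' : Q⁻¹ * Q = 1 := Matrix.nonsing_inv_mul Q hu
  -- `(Q⁻¹)ᵀ * Q = e`
  have hiT : (Q⁻¹)ᵀ * Q = e • (1 : Matrix (Fin r) (Fin r) ℚ) := by
    have h1 : (Q⁻¹)ᵀ * Qᵀ = 1 := by rw [← Matrix.transpose_mul, hQQ, Matrix.transpose_one]
    rw [hQe, Matrix.mul_smul] at h1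
    calc (Q⁻¹)ᵀ * Q = (e * e) • ((Q⁻¹)ᵀ * Q) := by rw [he, one_smul]
      _ = e • (e • ((Q⁻¹)ᵀ * Q)) := by rw [smul_smul]
      _ = e • 1 := by rw [h1]
  let B : Fin r → Fin r → Matrix (Fin r) (Fin r) ℚ := fun i j =>
    single i j (1 : ℚ) - e • single j i (1 : ℚ)
  have hB : ∀ i j, (B i j)ᵀ = -(e • B i j) := by
    intro i j
    simp only [B, Matrix.transpose_sub, Matrix.transpose_smul, Matrix.transpose_single, smul_sub,
      smul_smul, he, one_smul]
    abel
  have hA : ∀ i j, (Q⁻¹ * B i j)ᵀ * Q + Q * (Q⁻¹ * B i j) = 0 := by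
    intro i j
    rw [Matrix.transpose_mul, Matrix.mul_assoc, hiT, ← Matrix.mul_assoc, hQQ, Matrix.one_mul,
      Matrix.mul_smul, Matrix.mul_one, hB, smul_neg, smul_smul, he, one_smul, neg_add_cancel]
  have hk : ∀ i j, killX (up K t) ((Q⁻¹ * B i j).map (algebraMap ℚ K)) = 0 := by
    intro i j
    exact killX_iff.mpr (Kill.map (algebraMap ℚ K) (hkill _ (hA i j)))
  set QK := Q.map (algebraMap ℚ K) with hQK
  set QiK := (Q⁻¹).map (algebraMap ℚ K) with hQiK
  set ε : K := algebraMap ℚ K e with hε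
  have hεε : ε * ε = 1 := by rw [hε, ← map_mul, he, map_one]
  have hQKe : QKᵀ = ε • QK := by
    rw [hQK, ← Matrix.transpose_map, hQe]
    ext i j
    simp only [Matrix.map_apply, Matrix.smul_apply, smul_eq_mul, map_mul, hε]
  have hinv : QiK * QK = 1 := by
    rw [hQK, hQiK, ← Matrix.map_mul, hQQ', Matrix.map_one _ (map_zero _) (map_one _)]
  set S := QK * x with hS
  have hST : Sᵀ = -(ε • S) := by
    have h1 : xᵀ * QK = -S := by rw [hS]; exact eq_neg_of_add_eq_zero_left hx
    rw [hS, Matrix.transpose_mul, hQKe, Matrix.mul_smul, h1, smul_neg]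
  have hxS : x = QiK * S := by rw [hS, ← Matrix.mul_assoc, hinv, Matrix.one_mul]
  have hBm : ∀ i j, (Q⁻¹ * B i j).map (algebraMap ℚ K) =
      QiK * (single i j (1 : K) - ε • single j i (1 : K)) := by
    intro i j
    rw [Matrix.map_mul]
    congr 1
    ext k l
    simp only [B, Matrix.map_apply, Matrix.sub_apply, Matrix.smul_apply, smul_eq_mul, map_sub,
      map_mul, Matrix.single_apply, hε]
    congr 1
    · split_ifs <;> simp
    · congr 1
      split_ifs <;> simp
  have hsum : x = ∑ i, ∑ j, (2⁻¹ * S i j) • (Q⁻¹ * B i j).map (algebraMap ℚ K) := by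
    have h1 : ∀ M : Matrix (Fin r) (Fin r) K, ∑ i, ∑ j, M i j • single i j (1 : K) = M := by
      intro M
      conv_rhs => rw [Matrix.matrix_eq_sum_single M]
      refine Finset.sum_congr rfl fun i _ => Finset.sum_congr rfl fun j _ => ?_
      rw [Matrix.smul_single, smul_eq_mul, mul_one]
    have h2' : ∑ i, ∑ j, S i j • single j i (1 : K) = Sᵀ := by
      rw [Finset.sum_comm]
      exact h1 Sᵀ
    have h3 : ∑ i, ∑ j, (2⁻¹ * S i j) • (single i j (1 : K) - ε • single j i (1 : K)) = S := by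
      have h4 : ∀ i j, (2⁻¹ * S i j) • (single i j (1 : K) - ε • single j i (1 : K)) =
          (2⁻¹ : K) • (S i j • single i j (1 : K)) -
            (2⁻¹ * ε : K) • (S i j • single j i (1 : K)) := by
        intro i j
        rw [smul_sub, smul_smul, smul_smul, smul_smul]
        congr 2
        ring
      simp only [h4, Finset.sum_sub_distrib, ← Finset.smul_sum]
      rw [h1, h2', hST, smul_neg, smul_smul, sub_neg_eq_add, mul_assoc, hεε, mul_one, ← add_smul]
      have : (2⁻¹ : K) + 2⁻¹ = 1 := by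
        field_simp
        norm_num
      rw [this, one_smul]
    simp only [hBm]
    calc x = QiK * S := hxS
      _ = QiK * ∑ i, ∑ j, (2⁻¹ * S i j) • (single i j (1 : K) - ε • single j i (1 : K)) := by
          rw [h3]
      _ = _ := by
          rw [Matrix.mul_sum]
          refine Finset.sum_congr rfl fun i _ => ?_
          rw [Matrix.mul_sum]
          refine Finset.sum_congr rfl fun j _ => ?_
          rw [Matrix.mul_smul]
  have hfin : killX (up K t) x = 0 := by
    rw [hsum, map_sum]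
    refine Finset.sum_eq_zero fun i _ => ?_
    rw [map_sum]
    refine Finset.sum_eq_zero fun j _ => ?_
    rw [map_smul, hk, smul_zero]
  exact killX_iff.mp hfin

end Pool.Agent.Helper21.TH
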